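import Pool.Agent.J4H5.RZ.Stm

/-!
# Project RZ (helper5): (DIF), the size of `DD` and its dependence on `lam`
-/

set_option autoImplicit false

namespace Pool.Agent.J4H17.RZ.Dif

open Complex MeasureTheory Filter Topology Set
open Pool.Agent.J4H4.NG Pool.Agent.J4H5.RZ

noncomputable section

/-- the Gaussian factor -/
def gg (a L μ : ℝ) : ℂ := cexp (-(a : ℂ) * ((L : ℂ) - μ - I * (Real.pi / 4)) ^ 2)

theorem gg_norm (a L μ : ℝ) : ‖gg a L μ‖ = Real.exp (a * Real.pi ^ 2 / 16) * Real.exp (-a * (L - μ) ^ 2) := by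
  unfold gg
  rw [Complex.norm_exp, ← Real.exp_add]
  congr 1
  have e : -(a : ℂ) * ((L : ℂ) - μ - I * (Real.pi / 4)) ^ 2 =
      ((a * Real.pi ^ 2 / 16 + -a * (L - μ) ^ 2 : ℝ) : ℂ) + ((a * (L - μ) * Real.pi / 2 : ℝ) : ℂ) * I := by
    push_cast
    linear_combination (-(a : ℂ) * Real.pi ^ 2 / 16) * Complex.I_sq
  rw [e, Complex.add_re, Complex.ofReal_re, Complex.re_ofReal_mul, Complex.I_re, mul_zero, add_zero]

theorem gg_deriv (a L μ : ℝ) :
    HasDerivAt (fun μ : ℝ => gg a L μ) (gg a L μ * (2 * a * ((L : ℂ) - μ - I * (Real.pi / 4)))) μ := by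
  unfold gg
  have h1 : HasDerivAt (fun μ : ℝ => ((L : ℂ) - (μ : ℂ) - I * (Real.pi / 4))) (-1) μ := by
    have := ((hasDerivAt_id μ).ofReal_comp).const_sub (L : ℂ)
    have h2 := this.sub_const (I * (Real.pi / 4 : ℂ))
    simpa using h2
  have h3 := (h1.pow 2).const_mul (-(a : ℂ))
  refine (show HasDerivAt (fun μ : ℝ => cexp (-(a : ℂ) * ((L : ℂ) - μ - I * (Real.pi / 4)) ^ 2)) _ μ from
    h3.cexp).congr_deriv ?_
  show cexp (-(a : ℂ) * ((L : ℂ) - μ - I * (Real.pi / 4)) ^ 2) *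
    (-(a : ℂ) * (((2 : ℕ) : ℂ) * ((L : ℂ) - μ - I * (Real.pi / 4)) ^ (2 - 1) * -1)) = _
  rw [show (2 - 1 : ℕ) = 1 from rfl, pow_one]
  push_cast
  ring

theorem lin_norm (L μ : ℝ) : ‖(L : ℂ) - μ - I * (Real.pi / 4)‖ ≤ |L - μ| + 1 := by
  have h1 : (L : ℂ) - μ - I * (Real.pi / 4) = ((L - μ : ℝ) : ℂ) - ((Real.pi / 4 : ℝ) : ℂ) * I := by push_cast; ring
  rw [h1]
  refine (norm_sub_le _ _).trans ?_
  rw [Complex.norm_real, norm_mul, Complex.norm_real, Complex.norm_I, mul_one, Real.norm_eq_abs, Real.norm_eq_abs,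
    abs_of_pos (by positivity : (0 : ℝ) < Real.pi / 4)]
  have := Real.pi_le_four
  linarith

/-- Lipschitz bound -/
theorem gg_lip {a : ℝ} (ha : 0 < a) (L lam lam' : ℝ) (h : |lam - lam'| ≤ 1) : ‖gg a L lam - gg a L lam'‖ ≤
    4 * a * Real.exp (a * Real.pi ^ 2 / 16) * Real.exp a * ((1 + |L - lam|) * Real.exp (-(a / 2) * (L - lam) ^ 2)) * |lam - lam'| := by
  have hb : ∀ μ ∈ Metric.closedBall lam 1, ‖gg a L μ * (2 * a * ((L : ℂ) - μ - I * (Real.pi / 4)))‖ ≤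
      4 * a * Real.exp (a * Real.pi ^ 2 / 16) * Real.exp a * ((1 + |L - lam|) * Real.exp (-(a / 2) * (L - lam) ^ 2)) := by
    intro μ hμ
    rw [Metric.mem_closedBall, Real.dist_eq] at hμ
    rw [norm_mul, gg_norm, norm_mul, norm_mul, Complex.norm_real, Real.norm_eq_abs, abs_of_pos ha]
    have e2 : ‖(2 : ℂ)‖ = 2 := by norm_num
    rw [e2]
    have h1 := lin_norm L μ
    have h2 : |L - μ| ≤ |L - lam| + 1 := by
      have : L - μ = (L - lam) + (lam - μ) := by ring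
      rw [this]
      refine (abs_add_le _ _).trans ?_
      rw [abs_sub_comm lam μ]
      linarith
    have h3 : ‖(L : ℂ) - μ - I * (Real.pi / 4)‖ ≤ 2 * (1 + |L - lam|) := by
      linarith [abs_nonneg (L - lam)]
    have h4 : Real.exp (-a * (L - μ) ^ 2) ≤ Real.exp a * Real.exp (-(a / 2) * (L - lam) ^ 2) := by
      rw [← Real.exp_add]
      apply Real.exp_le_exp.2
      have h5 : (L - lam) ^ 2 ≤ 2 * (L - μ) ^ 2 + 2 := by
        have h6 : (μ - lam) ^ 2 ≤ 1 := by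
          rw [← sq_abs]
          exact pow_le_one₀ (abs_nonneg _) hμ
        nlinarith [sq_nonneg ((L - μ) - (μ - lam))]
      nlinarith
    calc Real.exp (a * Real.pi ^ 2 / 16) * Real.exp (-a * (L - μ) ^ 2) * (2 * a * ‖(L : ℂ) - μ - I * (Real.pi / 4)‖) ≤
        Real.exp (a * Real.pi ^ 2 / 16) * (Real.exp a * Real.exp (-(a / 2) * (L - lam) ^ 2)) *
          (2 * a * (2 * (1 + |L - lam|))) := by
          apply mul_le_mul
          · exact mul_le_mul_of_nonneg_left h4 (Real.exp_pos _).le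
          · exact mul_le_mul_of_nonneg_left h3 (by positivity)
          · positivity
          · positivity
      _ = _ := by ring
  have hmv := Convex.norm_image_sub_le_of_norm_hasDerivWithin_le (𝕜 := ℝ) (f := fun μ : ℝ => gg a L μ)
    (f' := fun μ : ℝ => gg a L μ * (2 * a * ((L : ℂ) - μ - I * (Real.pi / 4)))) (s := Metric.closedBall lam 1)
    (x := lam') (y := lam)
    (fun μ _ => (gg_deriv a L μ).hasDerivWithinAt) hb (convex_closedBall lam 1)
    (by rw [Metric.mem_closedBall, Real.dist_eq, abs_sub_comm]; exact h) (Metric.mem_closedBall_self zero_le_one)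
  rw [Real.norm_eq_abs] at hmv
  exact hmv

theorem pow_norm (n : ℕ) (v : ℝ) : ‖((n : ℂ) + 1) ^ (-(2 : ℂ) - I * v)‖ = (((n + 1 : ℕ) : ℝ) ^ 2)⁻¹ := by
  have h0 : (0 : ℝ) < ((n + 1 : ℕ) : ℝ) := by positivity
  have h1 : ((n : ℂ) + 1) = ((((n + 1 : ℕ) : ℝ) : ℝ) : ℂ) := by push_cast; rfl
  rw [h1, Complex.norm_cpow_eq_rpow_re_of_pos h0]
  have h2 : (-(2 : ℂ) - I * v).re = -2 := by simp
  rw [h2, Real.rpow_neg h0.le]
  norm_num

/-- one term -/
def tt (a lam v : ℝ) (n : ℕ) : ℂ := ((n : ℂ) + 1) ^ (-(2 : ℂ) - I * v) * gg a (Real.log ((n : ℝ) + 1)) lam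

theorem DD_eq (a lam v : ℝ) : DD a lam v = ∑' n : ℕ, tt a lam v n := rfl

theorem log_cast (n : ℕ) : Real.log ((n + 1 : ℕ) : ℝ) = Real.log ((n : ℝ) + 1) := by push_cast; rfl

theorem tt_norm (a lam v : ℝ) (n : ℕ) : ‖tt a lam v n‖ = Real.exp (a * Real.pi ^ 2 / 16) * amp a lam (n + 1) := by
  unfold tt amp
  rw [norm_mul, pow_norm, gg_norm, log_cast]
  ring

theorem tt_dif {a : ℝ} (ha : 0 < a) (lam lam' v : ℝ) (h : |lam - lam'| ≤ 1) (n : ℕ) : ‖tt a lam v n - tt a lam' v n‖ ≤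
    4 * a * Real.exp (a * Real.pi ^ 2 / 16) * Real.exp a * |lam - lam'| *
      (amp (a / 2) lam (n + 1) * (1 + |Real.log ((n : ℝ) + 1) - lam|)) := by
  unfold tt amp
  rw [← mul_sub, norm_mul, pow_norm, log_cast]
  have h1 := gg_lip ha (Real.log ((n : ℝ) + 1)) lam lam' h
  have h2 : (0 : ℝ) ≤ (((n + 1 : ℕ) : ℝ) ^ 2)⁻¹ := by positivity
  refine (mul_le_mul_of_nonneg_left h1 h2).trans (le_of_eq ?_)
  ring

theorem gauss_bd {b : ℝ} (hb : 0 < b) (x : ℝ) : (1 + |x|) * Real.exp (-b * x ^ 2) ≤ 2 + 1 / b := by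
  have h1 : Real.exp (-b * x ^ 2) ≤ 1 / (1 + b * x ^ 2) := by
    rw [show -b * x ^ 2 = -(b * x ^ 2) by ring, Real.exp_neg, ← one_div]
    apply one_div_le_one_div_of_le (by positivity)
    have := Real.add_one_le_exp (b * x ^ 2)
    linarith
  have h2 : |x| ≤ (1 + 1 / b) * (1 + b * x ^ 2) := by
    have e : (1 + 1 / b) * (1 + b * x ^ 2) = 1 + b * x ^ 2 + 1 / b + x ^ 2 := by field_simp; ring
    rw [e]
    have h3 : |x| ≤ 1 + x ^ 2 := by
      rw [← sq_abs x]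
      nlinarith [sq_nonneg (|x| - 1), abs_nonneg x]
    have h4 : 0 ≤ b * x ^ 2 := by positivity
    have h5 : 0 ≤ 1 / b := by positivity
    linarith
  have h6 : 1 + |x| ≤ (2 + 1 / b) * (1 + b * x ^ 2) := by
    have : (1 : ℝ) ≤ 1 + b * x ^ 2 := by
      have : 0 ≤ b * x ^ 2 := by positivity
      linarith
    nlinarith
  calc (1 + |x|) * Real.exp (-b * x ^ 2) ≤ ((2 + 1 / b) * (1 + b * x ^ 2)) * (1 / (1 + b * x ^ 2)) := by
        apply mul_le_mul h6 h1 (Real.exp_pos _).le (by positivity)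
    _ = 2 + 1 / b := by field_simp

theorem sum_third {a : ℝ} (ha : 0 < a) (lam : ℝ) :
    Summable (fun n : ℕ => amp a lam (n + 1) * (1 + |Real.log ((n : ℝ) + 1) - lam|)) := by
  have h0 := (summable_nat_add_iff 1).2 (Real.summable_one_div_nat_pow.2 (by norm_num : 1 < 2))
  refine Summable.of_nonneg_of_le (fun n => ?_) (fun n => ?_) (h0.mul_left (2 + 1 / a))
  · unfold amp; positivity
  · unfold amp
    rw [log_cast]
    have h1 := gauss_bd ha (Real.log ((n : ℝ) + 1) - lam)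
    have h2 : (0 : ℝ) ≤ (((n + 1 : ℕ) : ℝ) ^ 2)⁻¹ := by positivity
    have h3 := mul_le_mul_of_nonneg_left h1 h2
    calc (((n + 1 : ℕ) : ℝ) ^ 2)⁻¹ * Real.exp (-a * (Real.log ((n : ℝ) + 1) - lam) ^ 2) *
          (1 + |Real.log ((n : ℝ) + 1) - lam|) = (((n + 1 : ℕ) : ℝ) ^ 2)⁻¹ *
          ((1 + |Real.log ((n : ℝ) + 1) - lam|) * Real.exp (-a * (Real.log ((n : ℝ) + 1) - lam) ^ 2)) := by ring
      _ ≤ (((n + 1 : ℕ) : ℝ) ^ 2)⁻¹ * (2 + 1 / a) := h3
      _ = (2 + 1 / a) * (1 / ((n + 1 : ℕ) : ℝ) ^ 2) := by rw [one_div (((n + 1 : ℕ) : ℝ) ^ 2)]; ring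

theorem sum_tt {a : ℝ} (lam v : ℝ) (hs : Summable (fun n : ℕ => amp a lam (n + 1))) : Summable (tt a lam v) := by
  apply Summable.of_norm
  refine (hs.mul_left (Real.exp (a * Real.pi ^ 2 / 16))).congr ?_
  intro n
  rw [tt_norm]

theorem t_DIF : S_SUM → S_DIF := by
  intro hSUM a ha
  obtain ⟨c₁, C₁, hc₁, hC₁, hall₁⟩ := hSUM a 1 ha one_pos
  obtain ⟨c₂, C₂, hc₂, hC₂, hall₂⟩ := hSUM (a / 2) 1 (by positivity) one_pos
  set K : ℝ := 4 * a * Real.exp (a * Real.pi ^ 2 / 16) * Real.exp a with hK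
  have hK0 : 0 < K := by positivity
  refine ⟨Real.exp (a * Real.pi ^ 2 / 16) * C₁ + K * C₂, by positivity, fun lam lam' v hlam hlam' h => ?_⟩
  obtain ⟨hs1, hb1, -⟩ := hall₁ lam hlam
  obtain ⟨hs1', -, -⟩ := hall₁ lam' hlam'
  obtain ⟨-, -, hb3, -⟩ := hall₂ lam hlam
  have he : 0 < Real.exp (-lam) := Real.exp_pos _
  constructor
  · rw [DD_eq]
    have h1 : Summable (fun n => ‖tt a lam v n‖) := by
      refine (hs1.mul_left (Real.exp (a * Real.pi ^ 2 / 16))).congr ?_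
      intro n
      rw [tt_norm]
    refine (norm_tsum_le_tsum_norm h1).trans ?_
    simp only [tt_norm]
    rw [tsum_mul_left]
    have h2 := mul_le_mul_of_nonneg_left hb1 (Real.exp_pos (a * Real.pi ^ 2 / 16)).le
    refine h2.trans ?_
    have h3 : 0 ≤ K * C₂ * Real.exp (-lam) := by positivity
    linarith
  · rw [DD_eq, DD_eq, ← (sum_tt lam v hs1).tsum_sub (sum_tt lam' v hs1')]
    have hs3 := (sum_third (by positivity : 0 < a / 2) lam).mul_left (K * |lam - lam'|)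
    have hn : ∀ n, ‖tt a lam v n - tt a lam' v n‖ ≤ K * |lam - lam'| *
        (amp (a / 2) lam (n + 1) * (1 + |Real.log ((n : ℝ) + 1) - lam|)) := fun n => tt_dif ha lam lam' v h n
    have hsn : Summable (fun n => ‖tt a lam v n - tt a lam' v n‖) :=
      Summable.of_nonneg_of_le (fun n => norm_nonneg _) hn hs3
    refine (norm_tsum_le_tsum_norm hsn).trans ((hsn.tsum_le_tsum hn hs3).trans ?_)
    rw [tsum_mul_left]
    have h4 : 0 ≤ K * |lam - lam'| := by positivity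
    refine (mul_le_mul_of_nonneg_left hb3 h4).trans ?_
    have h5 : 0 ≤ Real.exp (a * Real.pi ^ 2 / 16) * C₁ * |lam - lam'| * Real.exp (-lam) := by positivity
    nlinarith

end

end Pool.Agent.J4H17.RZ.Dif
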