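import Pool.Agent.J4H5.RZ.Stm

/-!
# Project RZ (helper5): (MSQ), mean square of the Dirichlet series
-/

set_option autoImplicit false

namespace Pool.Agent.J4H17.RZ

open Complex MeasureTheory Filter Topology Set
open Pool.Agent.J4H4.NG Pool.Agent.J4H5.RZ

noncomputable section

/-! ### Finite sums -/

/-- the number `n + 1` -/
def xn (n : ℕ) : ℝ := (n : ℝ) + 1

theorem xn_pos (n : ℕ) : 0 < xn n := by unfold xn; positivity

theorem xn_one (n : ℕ) : 1 ≤ xn n := by unfold xn; linarith [(Nat.cast_nonneg n : (0 : ℝ) ≤ n)]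

/-- the partial sums -/
def DN (c : ℕ → ℂ) (N : ℕ) (v : ℝ) : ℂ := ∑ n ∈ Finset.range N, c n * cexp (-(I * (Real.log (xn n) * v : ℝ)))

theorem term_eq (n : ℕ) (v : ℝ) : ((n : ℂ) + 1) ^ (-(I * v)) = cexp (-(I * (Real.log (xn n) * v : ℝ))) := by
  have h0 : ((n : ℂ) + 1) ≠ 0 := by exact_mod_cast Nat.succ_ne_zero n
  rw [Complex.cpow_def_of_ne_zero h0]
  congr 1
  have h1 : ((n : ℂ) + 1) = ((xn n : ℝ) : ℂ) := by unfold xn; push_cast; rfl
  rw [h1, ← Complex.ofReal_log (xn_pos n).le]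
  push_cast
  ring

theorem norm_term (x : ℝ) : ‖cexp (-(I * (x : ℝ)))‖ = 1 := by
  have : -(I * (x : ℂ)) = ((-x : ℝ) : ℂ) * I := by push_cast; ring
  rw [this, Complex.norm_exp_ofReal_mul_I]

/-- oscillating integrals -/
theorem osc (θ V H : ℝ) (hθ : θ ≠ 0) : ‖∫ v in V..(V + H), cexp (I * (θ * v : ℝ))‖ ≤ 2 / |θ| := by
  have hc : I * (θ : ℂ) ≠ 0 := mul_ne_zero I_ne_zero (by exact_mod_cast hθ)
  have h1 : ∀ v : ℝ, cexp (I * (θ * v : ℝ)) = cexp ((I * θ) * v) := by
    intro v; congr 1; push_cast; ring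
  simp only [h1]
  rw [integral_exp_mul_complex hc, norm_div]
  have h2 : ‖I * (θ : ℂ)‖ = |θ| := by rw [norm_mul, Complex.norm_I, one_mul, Complex.norm_real, Real.norm_eq_abs]
  rw [h2]
  apply div_le_div_of_nonneg_right _ (abs_nonneg θ)
  have h3 : ∀ v : ℝ, ‖cexp (I * θ * v)‖ = 1 := by
    intro v
    have : I * (θ : ℂ) * v = ((θ * v : ℝ) : ℂ) * I := by push_cast; ring
    rw [this, Complex.norm_exp_ofReal_mul_I]
  refine (norm_sub_le _ _).trans ?_
  have h4 := h3 (V + H)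
  have h5 := h3 V
  push_cast at h4 h5
  rw [show ((V + H : ℝ) : ℂ) = (V : ℂ) + H by push_cast; ring, h4, h5]
  norm_num

theorem sq_expand (c : ℕ → ℂ) (N : ℕ) (v : ℝ) : ((‖DN c N v‖ ^ 2 : ℝ) : ℂ) =
    ∑ n ∈ Finset.range N, ∑ m ∈ Finset.range N, (c n * (starRingEnd ℂ) (c m)) *
      cexp (I * ((Real.log (xn m) - Real.log (xn n)) * v : ℝ)) := by
  have h1 : ((‖DN c N v‖ ^ 2 : ℝ) : ℂ) = DN c N v * (starRingEnd ℂ) (DN c N v) := by
    rw [Complex.mul_conj, Complex.normSq_eq_norm_sq]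
  rw [h1]
  unfold DN
  rw [map_sum, Finset.sum_mul_sum]
  apply Finset.sum_congr rfl
  intro n _
  apply Finset.sum_congr rfl
  intro m _
  rw [map_mul, ← Complex.exp_conj, map_neg, map_mul, Complex.conj_I, Complex.conj_ofReal]
  have : cexp (I * ((Real.log (xn m) - Real.log (xn n)) * v : ℝ)) =
      cexp (-(I * (Real.log (xn n) * v : ℝ))) * cexp (-(-I * (Real.log (xn m) * v : ℝ))) := by
    rw [← Complex.exp_add]; congr 1; push_cast; ring
  rw [this]
  ring

theorem log_xn_ne {n m : ℕ} (h : n ≠ m) : Real.log (xn m) - Real.log (xn n) ≠ 0 := by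
  intro h1
  have h2 : Real.log (xn m) = Real.log (xn n) := by linarith
  have h3 := Real.log_injOn_pos (xn_pos m) (xn_pos n) h2
  unfold xn at h3
  have h4 : (m : ℝ) = n := by linarith
  exact h (by exact_mod_cast h4.symm)

open Classical in
/-- mean square of the partial sums -/
theorem fin_ms (c : ℕ → ℂ) (N : ℕ) (V H : ℝ) :
    |(∫ v in V..(V + H), ‖DN c N v‖ ^ 2) - H * ∑ n ∈ Finset.range N, ‖c n‖ ^ 2| ≤
      ∑ n ∈ Finset.range N, ∑ m ∈ Finset.range N, if n = m then 0 else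
        ‖c n‖ * ‖c m‖ * (2 / |Real.log (xn m) - Real.log (xn n)|) := by
  have h1 : (((∫ v in V..(V + H), ‖DN c N v‖ ^ 2) - H * ∑ n ∈ Finset.range N, ‖c n‖ ^ 2 : ℝ) : ℂ) =
      ∑ n ∈ Finset.range N, ∑ m ∈ Finset.range N, if n = m then 0 else
        (c n * (starRingEnd ℂ) (c m)) * ∫ v in V..(V + H), cexp (I * ((Real.log (xn m) - Real.log (xn n)) * v : ℝ)) := by
    rw [Complex.ofReal_sub, ← intervalIntegral.integral_ofReal]
    have e1 : ∫ v in V..(V + H), ((‖DN c N v‖ ^ 2 : ℝ) : ℂ) = ∑ n ∈ Finset.range N, ∑ m ∈ Finset.range N,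
        (c n * (starRingEnd ℂ) (c m)) * ∫ v in V..(V + H), cexp (I * ((Real.log (xn m) - Real.log (xn n)) * v : ℝ)) := by
      simp only [sq_expand]
      rw [intervalIntegral.integral_finsetSum]
      · apply Finset.sum_congr rfl
        intro n _
        rw [intervalIntegral.integral_finsetSum]
        · apply Finset.sum_congr rfl
          intro m _
          rw [intervalIntegral.integral_const_mul]
        · intro m _
          apply Continuous.intervalIntegrable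
          fun_prop
      · intro n _
        apply Continuous.intervalIntegrable
        fun_prop
    rw [e1]
    have e2 : ((H * ∑ n ∈ Finset.range N, ‖c n‖ ^ 2 : ℝ) : ℂ) = ∑ n ∈ Finset.range N, ∑ m ∈ Finset.range N,
        if n = m then (c n * (starRingEnd ℂ) (c m)) *
          ∫ v in V..(V + H), cexp (I * ((Real.log (xn m) - Real.log (xn n)) * v : ℝ)) else 0 := by
      have : ∀ n ∈ Finset.range N, (∑ m ∈ Finset.range N,
          if n = m then (c n * (starRingEnd ℂ) (c m)) *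
          ∫ v in V..(V + H), cexp (I * ((Real.log (xn m) - Real.log (xn n)) * v : ℝ)) else 0) = ((H * ‖c n‖ ^ 2 : ℝ) : ℂ) := by
        intro n hn
        rw [Finset.sum_ite_eq, if_pos hn, sub_self]
        simp only [zero_mul, Complex.ofReal_zero, mul_zero, Complex.exp_zero]
        rw [intervalIntegral.integral_const, Complex.mul_conj, Complex.normSq_eq_norm_sq]
        rw [show V + H - V = H by ring, Complex.real_smul, mul_one]
        push_cast
        ring
      rw [Finset.sum_congr rfl this, Finset.mul_sum]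
      push_cast
      rfl
    rw [e2, ← Finset.sum_sub_distrib]
    apply Finset.sum_congr rfl
    intro n _
    rw [← Finset.sum_sub_distrib]
    apply Finset.sum_congr rfl
    intro m _
    by_cases h : n = m
    · rw [if_pos h, if_pos h, sub_self]
    · rw [if_neg h, if_neg h, sub_zero]
  have h2 : |(∫ v in V..(V + H), ‖DN c N v‖ ^ 2) - H * ∑ n ∈ Finset.range N, ‖c n‖ ^ 2| =
      ‖(((∫ v in V..(V + H), ‖DN c N v‖ ^ 2) - H * ∑ n ∈ Finset.range N, ‖c n‖ ^ 2 : ℝ) : ℂ)‖ := by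
    rw [Complex.norm_real, Real.norm_eq_abs]
  rw [h2, h1]
  refine (norm_sum_le _ _).trans (Finset.sum_le_sum fun n _ => (norm_sum_le _ _).trans (Finset.sum_le_sum fun m _ => ?_))
  by_cases h : n = m
  · rw [if_pos h, if_pos h, norm_zero]
  · rw [if_neg h, if_neg h, norm_mul, norm_mul, RCLike.norm_conj]
    apply mul_le_mul_of_nonneg_left _ (by positivity)
    exact osc _ V H (log_xn_ne h)

/-! ### The bound of the double sum -/

/-- the weight near the diagonal -/
def gw (n m : ℕ) : ℝ := open Classical in if n ≠ m ∧ |(m : ℝ) - n| ≤ xn n then xn n / |(m : ℝ) - n| else 0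

theorem gw_nonneg (n m : ℕ) : 0 ≤ gw n m := by
  unfold gw
  split_ifs
  · exact div_nonneg (xn_pos n).le (abs_nonneg _)
  · exact le_rfl

theorem harm_le (n : ℕ) : ∑ d ∈ Finset.range (n + 1), 1 / ((d : ℝ) + 1) ≤ 1 + Real.log (xn n) := by
  have h := harmonic_le_one_add_log (n + 1)
  have e : ((harmonic (n + 1) : ℚ) : ℝ) = ∑ d ∈ Finset.range (n + 1), 1 / ((d : ℝ) + 1) := by
    unfold harmonic
    push_cast
    apply Finset.sum_congr rfl
    intro d _
    rw [one_div]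
  rw [e] at h
  unfold xn
  push_cast at h
  exact h

theorem gw_sum (n N : ℕ) : ∑ m ∈ Finset.range N, gw n m ≤ 2 * (xn n * (1 + Real.log (xn n))) := by
  classical
  have h1 : ∑ m ∈ Finset.range N, gw n m ≤ ∑ m ∈ Finset.range (n + (1 + (n + 1))), gw n m := by
    have e : ∑ m ∈ Finset.range N, gw n m = ∑ m ∈ (Finset.range N).filter (fun m => m < n + (1 + (n + 1))), gw n m := by
      symm
      apply Finset.sum_filter_of_ne
      intro m _ hm
      by_contra hc
      apply hm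
      unfold gw
      rw [if_neg]
      rintro ⟨_, h2⟩
      have h3 : (m : ℝ) - n ≤ xn n := (le_abs_self _).trans h2
      unfold xn at h3
      have h4 : (m : ℝ) ≤ ((2 * n + 1 : ℕ) : ℝ) := by push_cast; linarith
      have h5 : m ≤ 2 * n + 1 := by exact_mod_cast h4
      omega
    rw [e]
    apply Finset.sum_le_sum_of_subset_of_nonneg
    · intro m hm
      rw [Finset.mem_filter] at hm
      exact Finset.mem_range.2 hm.2
    · intro m _ _
      exact gw_nonneg n m
  refine h1.trans ?_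
  rw [Finset.sum_range_add, Finset.sum_range_add]
  have h2 : ∑ m ∈ Finset.range n, gw n m ≤ xn n * ∑ d ∈ Finset.range (n + 1), 1 / ((d : ℝ) + 1) := by
    rw [← Finset.sum_range_reflect]
    calc ∑ j ∈ Finset.range n, gw n (n - 1 - j) ≤ ∑ j ∈ Finset.range n, xn n * (1 / ((j : ℝ) + 1)) := by
          apply Finset.sum_le_sum
          intro j hj
          rw [Finset.mem_range] at hj
          unfold gw
          split_ifs
          · have e : ((n - 1 - j : ℕ) : ℝ) - n = -((j : ℝ) + 1) := by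
              have h3 : ((n - 1 - j : ℕ) : ℝ) = (n : ℝ) - 1 - j := by
                rw [Nat.cast_sub (by omega), Nat.cast_sub (by omega)]
                push_cast
                ring
              rw [h3]; ring
            rw [e, abs_neg, abs_of_pos (by positivity : (0 : ℝ) < (j : ℝ) + 1), ← div_eq_mul_one_div]
          · have := xn_pos n
            positivity
      _ = xn n * ∑ j ∈ Finset.range n, 1 / ((j : ℝ) + 1) := by rw [Finset.mul_sum]
      _ ≤ xn n * ∑ d ∈ Finset.range (n + 1), 1 / ((d : ℝ) + 1) := by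
          apply mul_le_mul_of_nonneg_left _ (xn_pos n).le
          apply Finset.sum_le_sum_of_subset_of_nonneg (Finset.range_mono (Nat.le_succ n))
          intro j _ _
          positivity
  have h3 : ∑ m ∈ Finset.range 1, gw n (n + m) = 0 := by
    rw [Finset.sum_range_one, add_zero]
    unfold gw
    rw [if_neg (fun h => h.1 rfl)]
  have h4 : ∑ m ∈ Finset.range (n + 1), gw n (n + (1 + m)) ≤ xn n * ∑ d ∈ Finset.range (n + 1), 1 / ((d : ℝ) + 1) := by
    rw [Finset.mul_sum]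
    apply Finset.sum_le_sum
    intro j _
    unfold gw
    split_ifs
    · have e : ((n + (1 + j) : ℕ) : ℝ) - n = (j : ℝ) + 1 := by push_cast; ring
      rw [e, abs_of_pos (by positivity : (0 : ℝ) < (j : ℝ) + 1), ← div_eq_mul_one_div]
    · have := xn_pos n
      positivity
  have h5 := mul_le_mul_of_nonneg_left (harm_le n) (xn_pos n).le
  rw [h3]
  linarith

/-- the kernel -/
theorem kern (n m : ℕ) (h : n ≠ m) (α β : ℝ) (hα : 0 ≤ α) (hβ : 0 ≤ β) :
    α * β * (2 / |Real.log (xn m) - Real.log (xn n)|) ≤ 4 * (α * β) + (α ^ 2 * gw n m + β ^ 2 * gw m n) := by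
  -- for `n < m`
  have key : ∀ n m : ℕ, n < m → ∀ α β : ℝ, 0 ≤ α → 0 ≤ β →
      α * β * (2 / |Real.log (xn m) - Real.log (xn n)|) ≤ 4 * (α * β) + (α ^ 2 * gw n m + β ^ 2 * gw m n) := by
    intro n m hnm α β hα hβ
    have hd : (0 : ℝ) < (m : ℝ) - n := by
      have : (n : ℝ) < m := by exact_mod_cast hnm
      linarith
    have hxm : xn m = xn n + ((m : ℝ) - n) := by unfold xn; ring
    have hn0 := xn_pos n
    have hm0 := xn_pos m
    have hlog : ((m : ℝ) - n) / xn m ≤ Real.log (xn m) - Real.log (xn n) := by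
      have h1 := Real.log_le_sub_one_of_pos (div_pos hn0 hm0)
      rw [Real.log_div hn0.ne' hm0.ne'] at h1
      have h2 : xn n / xn m - 1 = -(((m : ℝ) - n) / xn m) := by
        rw [hxm]
        field_simp
        ring
      linarith
    have hl0 : 0 < Real.log (xn m) - Real.log (xn n) := lt_of_lt_of_le (div_pos hd hm0) hlog
    rw [abs_of_pos hl0]
    have h3 : 2 / (Real.log (xn m) - Real.log (xn n)) ≤ 2 * xn m / ((m : ℝ) - n) := by
      rw [div_le_div_iff₀ hl0 hd]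
      rw [div_le_iff₀ hm0] at hlog
      nlinarith
    have hαβ : 0 ≤ α * β := mul_nonneg hα hβ
    have h4 : α * β * (2 / (Real.log (xn m) - Real.log (xn n))) ≤ α * β * (2 * xn m / ((m : ℝ) - n)) :=
      mul_le_mul_of_nonneg_left h3 hαβ
    refine h4.trans ?_
    by_cases h5 : (m : ℝ) - n ≤ xn n
    · have g1 : gw n m = xn n / ((m : ℝ) - n) := by
        unfold gw
        rw [if_pos ⟨hnm.ne, by rw [abs_of_pos hd]; exact h5⟩, abs_of_pos hd]
      have g2 : gw m n = xn m / ((m : ℝ) - n) := by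
        unfold gw
        have e : |(n : ℝ) - m| = (m : ℝ) - n := by rw [abs_sub_comm, abs_of_pos hd]
        rw [if_pos ⟨hnm.ne', by rw [e, hxm]; linarith⟩, e]
      rw [g1, g2]
      have h6 : 2 * xn m / ((m : ℝ) - n) = 2 + 2 * (xn n / ((m : ℝ) - n)) := by
        rw [hxm]; field_simp; ring
      have h7 : xn n / ((m : ℝ) - n) ≤ xn m / ((m : ℝ) - n) :=
        div_le_div_of_nonneg_right (by rw [hxm]; linarith) hd.le
      have h8 : 0 ≤ xn n / ((m : ℝ) - n) := (div_pos hn0 hd).le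
      rw [h6]
      have h9 : 2 * (α * β) ≤ α ^ 2 + β ^ 2 := by nlinarith [sq_nonneg (α - β)]
      have h10 : 2 * (α * β) * (xn n / ((m : ℝ) - n)) ≤ (α ^ 2 + β ^ 2) * (xn n / ((m : ℝ) - n)) :=
        mul_le_mul_of_nonneg_right h9 h8
      have h11 : β ^ 2 * (xn n / ((m : ℝ) - n)) ≤ β ^ 2 * (xn m / ((m : ℝ) - n)) :=
        mul_le_mul_of_nonneg_left h7 (sq_nonneg β)
      nlinarith
    · push Not at h5
      have h6 : 2 * xn m / ((m : ℝ) - n) ≤ 4 := by
        rw [div_le_iff₀ hd, hxm]; linarith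
      have h7 := mul_le_mul_of_nonneg_left h6 hαβ
      have h8 : 0 ≤ α ^ 2 * gw n m := mul_nonneg (sq_nonneg α) (gw_nonneg _ _)
      have h9 : 0 ≤ β ^ 2 * gw m n := mul_nonneg (sq_nonneg β) (gw_nonneg _ _)
      linarith
  rcases lt_or_gt_of_ne h with h1 | h1
  · exact key n m h1 α β hα hβ
  · have := key m n h1 β α hβ hα
    rw [abs_sub_comm, mul_comm β α] at this
    linarith

open Classical in
theorem double_le (f : ℕ → ℝ) (hf : ∀ n, 0 ≤ f n) (N : ℕ) :
    (∑ n ∈ Finset.range N, ∑ m ∈ Finset.range N, if n = m then 0 else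
        f n * f m * (2 / |Real.log (xn m) - Real.log (xn n)|)) ≤
      4 * (∑ n ∈ Finset.range N, f n) ^ 2 + 4 * ∑ n ∈ Finset.range N, (f n) ^ 2 * (xn n * (1 + Real.log (xn n))) := by
  have h1 : (∑ n ∈ Finset.range N, ∑ m ∈ Finset.range N, if n = m then 0 else
        f n * f m * (2 / |Real.log (xn m) - Real.log (xn n)|)) ≤
      ∑ n ∈ Finset.range N, ∑ m ∈ Finset.range N, (4 * (f n * f m) + ((f n) ^ 2 * gw n m + (f m) ^ 2 * gw m n)) := by
    apply Finset.sum_le_sum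
    intro n _
    apply Finset.sum_le_sum
    intro m _
    by_cases h : n = m
    · rw [if_pos h]
      have a1 := mul_nonneg (hf n) (hf m)
      have a2 := mul_nonneg (sq_nonneg (f n)) (gw_nonneg n m)
      have a3 := mul_nonneg (sq_nonneg (f m)) (gw_nonneg m n)
      linarith
    · rw [if_neg h]
      exact kern n m h (f n) (f m) (hf n) (hf m)
  refine h1.trans ?_
  have h2 : ∑ n ∈ Finset.range N, ∑ m ∈ Finset.range N, (4 * (f n * f m) + ((f n) ^ 2 * gw n m + (f m) ^ 2 * gw m n)) =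
      4 * (∑ n ∈ Finset.range N, f n) ^ 2 + 2 * ∑ n ∈ Finset.range N, (f n) ^ 2 * ∑ m ∈ Finset.range N, gw n m := by
    have e1 : ∑ n ∈ Finset.range N, ∑ m ∈ Finset.range N, 4 * (f n * f m) = 4 * (∑ n ∈ Finset.range N, f n) ^ 2 := by
      rw [sq, Finset.sum_mul_sum, Finset.mul_sum]
      apply Finset.sum_congr rfl
      intro n _
      rw [Finset.mul_sum]
    have e2 : ∑ n ∈ Finset.range N, ∑ m ∈ Finset.range N, (f n) ^ 2 * gw n m =
        ∑ n ∈ Finset.range N, (f n) ^ 2 * ∑ m ∈ Finset.range N, gw n m := by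
      apply Finset.sum_congr rfl
      intro n _
      rw [Finset.mul_sum]
    have e3 : ∑ n ∈ Finset.range N, ∑ m ∈ Finset.range N, (f m) ^ 2 * gw m n =
        ∑ n ∈ Finset.range N, (f n) ^ 2 * ∑ m ∈ Finset.range N, gw n m := by
      rw [Finset.sum_comm, e2]
    simp only [Finset.sum_add_distrib]
    rw [e1, e2, e3]
    ring
  rw [h2]
  have h3 : ∑ n ∈ Finset.range N, (f n) ^ 2 * ∑ m ∈ Finset.range N, gw n m ≤
      ∑ n ∈ Finset.range N, (f n) ^ 2 * (2 * (xn n * (1 + Real.log (xn n)))) := by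
    apply Finset.sum_le_sum
    intro n _
    exact mul_le_mul_of_nonneg_left (gw_sum n N) (sq_nonneg _)
  have h4 : ∑ n ∈ Finset.range N, (f n) ^ 2 * (2 * (xn n * (1 + Real.log (xn n)))) =
      2 * ∑ n ∈ Finset.range N, (f n) ^ 2 * (xn n * (1 + Real.log (xn n))) := by
    rw [Finset.mul_sum]
    apply Finset.sum_congr rfl
    intro n _
    ring
  linarith

/-! ### The limit -/

theorem amp_nonneg (a lam : ℝ) (k : ℕ) : 0 ≤ amp a lam k := by unfold amp; positivity

theorem amp_le {a : ℝ} (ha : 0 < a) (lam : ℝ) (n : ℕ) : amp a lam (n + 1) ≤ ((xn n) ^ 2)⁻¹ := by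
  unfold amp
  have h1 : Real.exp (-a * (Real.log ((n + 1 : ℕ) : ℝ) - lam) ^ 2) ≤ 1 := by
    rw [Real.exp_le_one_iff]
    have : 0 ≤ a * (Real.log ((n + 1 : ℕ) : ℝ) - lam) ^ 2 := by positivity
    linarith
  have h2 : (((n + 1 : ℕ) : ℝ) ^ 2)⁻¹ = ((xn n) ^ 2)⁻¹ := by unfold xn; push_cast; rfl
  rw [h2]
  have h3 : 0 ≤ ((xn n) ^ 2)⁻¹ := by positivity
  calc ((xn n) ^ 2)⁻¹ * Real.exp (-a * (Real.log ((n + 1 : ℕ) : ℝ) - lam) ^ 2) ≤ ((xn n) ^ 2)⁻¹ * 1 :=
        mul_le_mul_of_nonneg_left h1 h3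
    _ = _ := mul_one _

theorem sum_inv_sq : Summable (fun n : ℕ => ((xn n) ^ 2)⁻¹) := by
  have h := (summable_nat_add_iff 1).2 (Real.summable_one_div_nat_pow.2 (by norm_num : 1 < 2))
  refine h.congr ?_
  intro n
  unfold xn
  push_cast
  rw [one_div]

theorem sum_w {a : ℝ} (ha : 0 < a) (lam : ℝ) :
    Summable (fun n : ℕ => ((n : ℝ) + 1) * (1 + Real.log ((n : ℝ) + 1)) * (amp a lam (n + 1)) ^ 2) := by
  refine Summable.of_nonneg_of_le (fun n => ?_) (fun n => ?_) sum_inv_sq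
  · have h1 : 0 ≤ Real.log ((n : ℝ) + 1) := Real.log_nonneg (by linarith [(Nat.cast_nonneg n : (0 : ℝ) ≤ n)])
    positivity
  · have hx := xn_pos n
    have hx1 := xn_one n
    have h1 : 0 ≤ Real.log (xn n) := Real.log_nonneg hx1
    have h2 : 1 + Real.log (xn n) ≤ xn n := by
      have := Real.log_le_sub_one_of_pos hx
      linarith
    have h3 := amp_le ha lam n
    have h4 := amp_nonneg a lam (n + 1)
    have h5 : (amp a lam (n + 1)) ^ 2 ≤ (((xn n) ^ 2)⁻¹) ^ 2 := pow_le_pow_left₀ h4 h3 2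
    calc ((n : ℝ) + 1) * (1 + Real.log ((n : ℝ) + 1)) * (amp a lam (n + 1)) ^ 2 =
        xn n * (1 + Real.log (xn n)) * (amp a lam (n + 1)) ^ 2 := rfl
      _ ≤ xn n * xn n * (((xn n) ^ 2)⁻¹) ^ 2 := by
        apply mul_le_mul _ h5 (sq_nonneg _) (by positivity)
        exact mul_le_mul_of_nonneg_left h2 hx.le
      _ = ((xn n) ^ 2)⁻¹ := by field_simp

theorem DN_tendsto {c : ℕ → ℂ} (hs : Summable (fun n => ‖c n‖)) (v : ℝ) :
    Tendsto (fun N => DN c N v) atTop (𝓝 (DS c v)) := by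
  have h1 : Summable (fun n => c n * cexp (-(I * (Real.log (xn n) * v : ℝ)))) := by
    apply Summable.of_norm
    refine hs.congr ?_
    intro n
    rw [norm_mul, norm_term, mul_one]
  have h2 := h1.hasSum.tendsto_sum_nat
  have h3 : DS c v = ∑' n, c n * cexp (-(I * (Real.log (xn n) * v : ℝ))) := by
    unfold DS
    apply tsum_congr
    intro n
    rw [term_eq]
  rw [h3]
  exact h2

theorem DN_norm {c : ℕ → ℂ} (hs : Summable (fun n => ‖c n‖)) (N : ℕ) (v : ℝ) : ‖DN c N v‖ ≤ ∑' n, ‖c n‖ := by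
  unfold DN
  refine (norm_sum_le _ _).trans ?_
  refine le_trans (le_of_eq ?_) (hs.sum_le_tsum (Finset.range N) (fun n _ => norm_nonneg _))
  apply Finset.sum_congr rfl
  intro n _
  rw [norm_mul, norm_term, mul_one]

theorem DN_cont (c : ℕ → ℂ) (N : ℕ) : Continuous (DN c N) := by
  unfold DN
  fun_prop

theorem int_tendsto {c : ℕ → ℂ} (hs : Summable (fun n => ‖c n‖)) (V H : ℝ) :
    Tendsto (fun N => ∫ v in V..(V + H), ‖DN c N v‖ ^ 2) atTop (𝓝 (∫ v in V..(V + H), ‖DS c v‖ ^ 2)) := by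
  apply intervalIntegral.tendsto_integral_filter_of_dominated_convergence (fun _ => (∑' n, ‖c n‖) ^ 2)
  · exact Eventually.of_forall fun N => ((DN_cont c N).norm.pow 2).aestronglyMeasurable
  · refine Eventually.of_forall fun N => Eventually.of_forall fun v _ => ?_
    rw [Real.norm_eq_abs, abs_of_nonneg (sq_nonneg _)]
    exact pow_le_pow_left₀ (norm_nonneg _) (DN_norm hs N v) 2
  · exact intervalIntegrable_const
  · exact Eventually.of_forall fun v _ => ((DN_tendsto hs v).norm.pow 2)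

theorem t_MSQ : S_SUM → S_MSQ := by
  intro hSUM a ha
  obtain ⟨c₀, C, hc₀, hC, hall⟩ := hSUM a 1 ha one_pos
  refine ⟨4 * C ^ 2 + 4 * C, by positivity, fun lam hlam c hc V H _ => ?_⟩
  obtain ⟨hs1, hb1, -, hb4, -, -, -⟩ := hall lam hlam
  have hs : Summable (fun n => ‖c n‖) := Summable.of_nonneg_of_le (fun n => norm_nonneg _) hc hs1
  have hs2 : Summable (fun n => ‖c n‖ ^ 2) := by
    refine Summable.of_nonneg_of_le (fun n => sq_nonneg _) (fun n => ?_) (sum_w ha lam)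
    have h1 : ‖c n‖ ^ 2 ≤ (amp a lam (n + 1)) ^ 2 := pow_le_pow_left₀ (norm_nonneg _) (hc n) 2
    have h2 : (1 : ℝ) ≤ ((n : ℝ) + 1) * (1 + Real.log ((n : ℝ) + 1)) := by
      have h3 : 0 ≤ Real.log ((n : ℝ) + 1) := Real.log_nonneg (by linarith [(Nat.cast_nonneg n : (0 : ℝ) ≤ n)])
      have h4 : (0 : ℝ) ≤ n := Nat.cast_nonneg n
      nlinarith
    calc ‖c n‖ ^ 2 ≤ 1 * (amp a lam (n + 1)) ^ 2 := by rw [one_mul]; exact h1
      _ ≤ _ := mul_le_mul_of_nonneg_right h2 (sq_nonneg _)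
  set B : ℝ := 4 * (∑' n : ℕ, amp a lam (n + 1)) ^ 2 +
    4 * ∑' n : ℕ, ((n : ℝ) + 1) * (1 + Real.log ((n : ℝ) + 1)) * (amp a lam (n + 1)) ^ 2 with hB
  have hfin : ∀ N : ℕ, |(∫ v in V..(V + H), ‖DN c N v‖ ^ 2) - H * ∑ n ∈ Finset.range N, ‖c n‖ ^ 2| ≤ B := by
    intro N
    refine (fin_ms c N V H).trans ((double_le (fun n => ‖c n‖) (fun n => norm_nonneg _) N).trans ?_)
    have h1 : ∑ n ∈ Finset.range N, ‖c n‖ ≤ ∑' n : ℕ, amp a lam (n + 1) :=
      (Finset.sum_le_sum (fun n _ => hc n)).trans (hs1.sum_le_tsum _ (fun n _ => amp_nonneg _ _ _))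
    have h2 : 0 ≤ ∑ n ∈ Finset.range N, ‖c n‖ := Finset.sum_nonneg (fun n _ => norm_nonneg _)
    have h3 : (∑ n ∈ Finset.range N, ‖c n‖) ^ 2 ≤ (∑' n : ℕ, amp a lam (n + 1)) ^ 2 := pow_le_pow_left₀ h2 h1 2
    have h4 : ∑ n ∈ Finset.range N, ‖c n‖ ^ 2 * (xn n * (1 + Real.log (xn n))) ≤
        ∑' n : ℕ, ((n : ℝ) + 1) * (1 + Real.log ((n : ℝ) + 1)) * (amp a lam (n + 1)) ^ 2 := by
      refine le_trans (Finset.sum_le_sum (fun n _ => ?_)) ((sum_w ha lam).sum_le_tsum (Finset.range N) (fun n _ => ?_))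
      · have h5 : ‖c n‖ ^ 2 ≤ (amp a lam (n + 1)) ^ 2 := pow_le_pow_left₀ (norm_nonneg _) (hc n) 2
        have h6 : 0 ≤ xn n * (1 + Real.log (xn n)) :=
          mul_nonneg (xn_pos n).le (by linarith [Real.log_nonneg (xn_one n)])
        calc ‖c n‖ ^ 2 * (xn n * (1 + Real.log (xn n))) ≤ (amp a lam (n + 1)) ^ 2 * (xn n * (1 + Real.log (xn n))) :=
              mul_le_mul_of_nonneg_right h5 h6
          _ = _ := by rw [mul_comm]; rfl
      · have h1 : 0 ≤ Real.log ((n : ℝ) + 1) := Real.log_nonneg (by linarith [(Nat.cast_nonneg n : (0 : ℝ) ≤ n)])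
        positivity
    rw [hB]
    linarith
  have hlim : Tendsto (fun N : ℕ => |(∫ v in V..(V + H), ‖DN c N v‖ ^ 2) - H * ∑ n ∈ Finset.range N, ‖c n‖ ^ 2|) atTop
      (𝓝 |(∫ v in V..(V + H), ‖DS c v‖ ^ 2) - H * ∑' n, ‖c n‖ ^ 2|) :=
    ((int_tendsto hs V H).sub (hs2.hasSum.tendsto_sum_nat.const_mul H)).abs
  refine (le_of_tendsto hlim (Eventually.of_forall hfin)).trans ?_
  have h0 : 0 ≤ ∑' n : ℕ, amp a lam (n + 1) := tsum_nonneg (fun n => amp_nonneg _ _ _)
  have h1 : (∑' n : ℕ, amp a lam (n + 1)) ^ 2 ≤ (C * Real.exp (-lam)) ^ 2 := pow_le_pow_left₀ h0 hb1 2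
  have h2 : (C * Real.exp (-lam)) ^ 2 = C ^ 2 * Real.exp (-(2 * lam)) := by
    rw [mul_pow, ← Real.exp_nat_mul]
    congr 2
    push_cast
    ring
  have h3 : 0 < Real.exp (-(2 * lam)) := Real.exp_pos _
  have h4 : C ^ 2 * Real.exp (-(2 * lam)) ≤ C ^ 2 * ((1 + lam) * Real.exp (-(2 * lam))) := by
    apply mul_le_mul_of_nonneg_left _ (by positivity)
    nlinarith
  rw [hB]
  calc 4 * (∑' n : ℕ, amp a lam (n + 1)) ^ 2 +
      4 * ∑' n : ℕ, ((n : ℝ) + 1) * (1 + Real.log ((n : ℝ) + 1)) * (amp a lam (n + 1)) ^ 2 ≤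
      4 * (C ^ 2 * ((1 + lam) * Real.exp (-(2 * lam)))) + 4 * (C * (1 + lam) * Real.exp (-(2 * lam))) := by
        rw [h2] at h1
        linarith
    _ = (4 * C ^ 2 + 4 * C) * (1 + lam) * Real.exp (-(2 * lam)) := by ring

end

end Pool.Agent.J4H17.RZ
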